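import Mathlib
import Pool.Agent.Helper60.RR.Main

namespace Pool.Agent.Results.MP_7de92b_lc.SigmaThree

open Pool.Agent.Helper617.RM (L2Structure)
open Pool.Agent.Helper60.RR

universe u

/-- There is a `Σ¹₃` sentence `σ` such that `Rfn(σ)` is equivalent to `ATR₀` over `ACA₀`: in every
model of `ACA₀` (Henkin semantics, so nonstandard models are included) `Rfn(σ)` holds if and only
if all axioms of `ATR₀` hold. -/
theorem result : ∃ σ : Fml, σ.IsSentence ∧ σ.IsSigma13 ∧
    ∀ N : L2Structure.{u}, IsACA0 N → (Rfn N σ ↔ IsATR0 N) := by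
  obtain ⟨σ, h1, h2, h3, h4⟩ := main.{u}
  exact ⟨σ, h1, h2, fun N hN => ⟨h3 N hN, h4 N⟩⟩

end Pool.Agent.Results.MP_7de92b_lc.SigmaThree
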